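import Pool.Agent.Results.MP_9a3c31_nt.AllFieldsAllTwists

/-!
# The heights of the invariants for which the lower bound of Lang and Silverman fails

The number of the heights of the exceptional invariants `j` in a number field, from the starting theorem
`AllFieldsAllTwists`.
-/

set_option autoImplicit false

namespace Pool.Agent.T9h59.LS

open NumberField
open Pool.Agent.Results.MP_9a3c31_nt
open AllFieldsAllTwists (LangSilverman Inv part_one)

/-- The multiplicative height `H_K(j)` relative to the number field `K`. -/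
noncomputable def mheight {K : Type} [Field K] [NumberField K] (j : K) : ℝ := Real.exp (Height.logHeight₁ j)

/-- the numbers `H_K(j)^b` of the exceptional invariants -/
def Exc (K : Type) [Field K] [NumberField K] (η b : ℝ) : Set ℝ :=
  {t : ℝ | ∃ j : K, j ≠ 0 ∧ j ≠ 1728 ∧ ¬ LangSilverman ((1 - 2 * η) / 100) j ∧ mheight j ^ b = t}

theorem count (K : Type) [Field K] [NumberField K] {η b : ℝ} (hη0 : 0 < η) (hη : η < 1 / 2) (hb : 0 < b) (ε : ℝ)
    (hε : 0 < ε) :
    ∃ C : ℝ, ∀ X : ℝ, 1 ≤ X → {t | t ∈ Exc K η b ∧ t ≤ X}.Finite ∧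
      ({t | t ∈ Exc K η b ∧ t ≤ X}.ncard : ℝ) ≤ C * X ^ ((2 - η / 2) / b + ε) := by
  classical
  obtain ⟨C, hC, h⟩ := part_one η (ε * b) hη0 hη (by positivity)
  set n : ℕ := Module.finrank ℚ K with hn
  have hn0 : (0 : ℝ) < n := by
    rw [hn]
    exact_mod_cast Module.finrank_pos (R := ℚ) (M := K)
  refine ⟨C ^ n, fun X hX => ?_⟩
  have hX0 : (0 : ℝ) < X := by linarith
  set B : ℝ := X ^ (1 / (b * n)) with hB
  have hB1 : 1 ≤ B := Real.one_le_rpow hX (by positivity)
  obtain ⟨hfin, hcard⟩ := h K B hB1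
  have hfin2 : (AllFieldsAllTwists.Exc K ((1 - 2 * η) / 100) B).Finite := hfin.subset (fun x hx => hx.1)
  have hsub : {t | t ∈ Exc K η b ∧ t ≤ X} ⊆
      (fun j : K => mheight j ^ b) '' (AllFieldsAllTwists.Exc K ((1 - 2 * η) / 100) B) := by
    rintro t ⟨⟨j, h0, h1, h2, h3⟩, ht⟩
    refine ⟨j, ⟨⟨h0, h1, ?_⟩, h2⟩, h3⟩
    rw [← hn, hB, Real.log_rpow hX0]
    have h4 : mheight j ^ b ≤ X := by rw [h3]; exact ht
    have h5 := Real.log_le_log (Real.rpow_pos_of_pos (Real.exp_pos _) b) h4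
    rw [Real.log_rpow (Real.exp_pos _), Real.log_exp] at h5
    have e : (n : ℝ) * (1 / (b * n) * Real.log X) = Real.log X / b := by field_simp
    rw [e, le_div_iff₀ hb]
    linarith
  refine ⟨(hfin2.image _).subset hsub, ?_⟩
  have h1 : ({t | t ∈ Exc K η b ∧ t ≤ X}.ncard : ℝ) ≤ ((AllFieldsAllTwists.Exc K ((1 - 2 * η) / 100) B).ncard : ℝ) := by
    exact_mod_cast (Set.ncard_le_ncard hsub (hfin2.image _)).trans (Set.ncard_image_le hfin2)
  refine h1.trans (hcard.trans (le_of_eq ?_))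
  rw [← hn, mul_pow, hB, ← Real.rpow_mul hX0.le, ← Real.rpow_mul_natCast hX0.le]
  congr 2
  field_simp

end Pool.Agent.T9h59.LS
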